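import Mathlib
import Pool.Agent.Results.MP_081461_lc.EqualitiesAndMeasure

/-!
# `non(ℰ) < 𝔟_b^eq` and `𝔡_b^eq < cov(ℰ)` for all `b` with `∑ 1 / b(k) = ∞` if `non(𝒩) < cov(𝒩)`

For every `b` with divergent sum `∑ 1 / b(k)`, `cov(𝒩) ≤ 𝔟_b^eq` and `𝔡_b^eq ≤ non(𝒩)`: choose the
intervals `I_n` with `∏_{k ∈ I_n} (1 - 1 / b(k)) ≤ 2^(-n)`; then, for every `f ∈ ∏ b`, almost all
`h ∈ ∏ b` satisfy `f ⊏ (I, h)` (Borel-Cantelli). Since `ℰ ⊆ 𝒩`, also `non(ℰ) ≤ non(𝒩)` and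
`cov(𝒩) ≤ cov(ℰ)`. So in every model of `non(𝒩) < cov(𝒩)`, for instance in the random model,
`non(ℰ) < 𝔟_b^eq` and `𝔡_b^eq < cov(ℰ)` hold for all these `b` at once.
-/

set_option autoImplicit false

namespace Pool.Agent.Results.MP_0fb2ec_lc.DivergentSums

open Filter Cardinal MeasureTheory ProbabilityTheory
open scoped ENNReal unitInterval

/-! ### Definitions used in the statement -/

/-- The set `∏ b` of the functions `y` with `y k < b k` for all `k`. -/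
def Prod (b : ℕ → ℕ) : Set (ℕ → ℕ) := {y | ∀ k, y k < b k}

/-- `a` is the sequence of the left ends of a partition of `ℕ` into finite non-empty intervals
`I_n = [a n, a (n + 1))`. -/
def IsPartition (a : ℕ → ℕ) : Prop := StrictMono a ∧ a 0 = 0

/-- `f ⊏ (I, h)`: for all but finitely many `n` there is `k ∈ I_n` with `f k = h k`. -/
def Sq (f a h : ℕ → ℕ) : Prop := ∀ᶠ n in atTop, ∃ k, a n ≤ k ∧ k < a (n + 1) ∧ f k = h k

/-- `𝔟_b^eq`. -/
noncomputable def bEq (b : ℕ → ℕ) : Cardinal.{0} :=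
  sInf {κ | ∃ F : Set (ℕ → ℕ), F ⊆ Prod b ∧
    (¬ ∃ a, IsPartition a ∧ ∃ h ∈ Prod b, ∀ f ∈ F, Sq f a h) ∧ #F = κ}

/-- `𝔡_b^eq`. -/
noncomputable def dEq (b : ℕ → ℕ) : Cardinal.{0} :=
  sInf {κ | ∃ D : Set ((ℕ → ℕ) × (ℕ → ℕ)), (∀ p ∈ D, IsPartition p.1 ∧ p.2 ∈ Prod b) ∧
    (∀ f ∈ Prod b, ∃ p ∈ D, Sq f p.1 p.2) ∧ #D = κ}

/-- the Lebesgue measure on the Cantor space: independent fair coins -/
noncomputable def coin : Measure (ℕ → Bool) :=
  Measure.infinitePi fun _ => (PMF.uniformOfFintype Bool).toMeasure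

/-- the `σ`-ideal `ℰ` generated by the closed null subsets of the Cantor space -/
def IsE (A : Set (ℕ → Bool)) : Prop :=
  ∃ C : ℕ → Set (ℕ → Bool), (∀ n, IsClosed (C n) ∧ coin (C n) = 0) ∧ A ⊆ ⋃ n, C n

/-- `non(ℰ)` -/
noncomputable def nonE : Cardinal.{0} := sInf {κ | ∃ A : Set (ℕ → Bool), ¬ IsE A ∧ #A = κ}

/-- `cov(ℰ)` -/
noncomputable def covE : Cardinal.{0} :=
  sInf {κ | ∃ 𝒜 : Set (Set (ℕ → Bool)), (∀ A ∈ 𝒜, IsE A) ∧ ⋃₀ 𝒜 = Set.univ ∧ #𝒜 = κ}

/-- `non(𝒩)`: the least cardinality of a set of reals in `[0, 1]` which is not a Lebesgue null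
set. -/
noncomputable def nonN : Cardinal.{0} := sInf {κ | ∃ A : Set unitInterval, volume A ≠ 0 ∧ #A = κ}

/-- `cov(𝒩)`: the least number of Lebesgue null sets with union `[0, 1]`. -/
noncomputable def covN : Cardinal.{0} :=
  sInf {κ | ∃ 𝒩 : Set (Set unitInterval), (∀ N ∈ 𝒩, volume N = 0) ∧ ⋃₀ 𝒩 = Set.univ ∧ #𝒩 = κ}

/-! ### The measures -/

open Pool.Agent.Results.MP_081461_lc.EqualitiesAndMeasure (unif prodU prodU_coord)

theorem unif_singleton {g : ℕ} (hg : 1 ≤ g) (a : ℕ) :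
    unif g {a} = if a < g then (g : ℝ≥0∞)⁻¹ else 0 := by
  unfold unif
  rw [PMF.toMeasure_apply_singleton _ _ (measurableSet_singleton a), PMF.uniformOfFinset_apply,
    Nat.sub_add_cancel (by omega), Finset.card_range]
  simp only [Finset.mem_range]

theorem prodU_below {G : ℕ → ℕ} (hG : ∀ n, 1 ≤ G n) : prodU G (Prod G)ᶜ = 0 := by
  have h : (Prod G)ᶜ ⊆ ⋃ n, {z : ℕ → ℕ | z n ∈ (Set.Iio (G n))ᶜ} := by
    intro z hz
    simp only [Set.mem_compl_iff, Prod, Set.mem_ofPred_eq, not_forall] at hz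
    obtain ⟨n, hn⟩ := hz
    exact Set.mem_iUnion.2 ⟨n, by simpa using hn⟩
  refine measure_mono_null h (measure_iUnion_null fun n => ?_)
  rw [prodU_coord]
  unfold unif
  rw [PMF.toMeasure_apply_eq_zero_iff _ MeasurableSet.of_discrete, PMF.support_uniformOfFinset,
    Nat.sub_add_cancel (by have := hG n; omega)]
  rw [Set.disjoint_left]
  intro a ha hb
  simp at ha hb
  omega

theorem unif_compl {g a : ℕ} (hg : 1 ≤ g) (ha : a < g) :
    unif g {a}ᶜ = ENNReal.ofReal (1 - 1 / g) := by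
  rw [prob_compl_eq_one_sub (measurableSet_singleton a), unif_singleton hg, if_pos ha]
  have h0 : (0 : ℝ) < g := by exact_mod_cast hg
  rw [ENNReal.ofReal_sub _ (by positivity), ENNReal.ofReal_one, one_div,
    ENNReal.ofReal_inv_of_pos h0, ENNReal.ofReal_natCast]

/-- the measure of the functions which differ from `x` on an interval -/
theorem prodU_miss {b : ℕ → ℕ} (hb : ∀ k, 1 ≤ b k) {x : ℕ → ℕ} (hx : x ∈ Prod b) (m m' : ℕ) :
    prodU b {h | ∀ k, m ≤ k → k < m' → x k ≠ h k} =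
      ENNReal.ofReal (∏ k ∈ Finset.Ico m m', (1 - 1 / (b k : ℝ))) := by
  have h1 : {h : ℕ → ℕ | ∀ k, m ≤ k → k < m' → x k ≠ h k} =
      Set.pi ((Finset.Ico m m' : Finset ℕ) : Set ℕ) (fun k => {x k}ᶜ) := by
    ext h
    simp only [Set.mem_ofPred_eq, Set.mem_pi, Finset.coe_Ico, Set.mem_Ico, Set.mem_compl_iff,
      Set.mem_singleton_iff]
    constructor
    · intro h2 k hk hk2
      exact h2 k hk.1 hk.2 hk2.symm
    · intro h2 k hk1 hk2 hk3
      exact h2 k ⟨hk1, hk2⟩ hk3.symm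
  rw [h1]
  unfold prodU
  rw [Measure.infinitePi_pi _ (fun _ _ => MeasurableSet.of_discrete),
    ENNReal.ofReal_prod_of_nonneg]
  · exact Finset.prod_congr rfl fun k _ => unif_compl (hb k) (hx k)
  · intro k _
    have h0 : (1 : ℝ) ≤ b k := by exact_mod_cast hb k
    have h2 : 1 / (b k : ℝ) ≤ 1 := by
      rw [div_le_one (by linarith)]
      exact h0
    linarith

/-- long intervals -/
theorem exists_long {b : ℕ → ℕ} (hb : ∀ k, 1 ≤ b k)
    (hs : ¬ Summable fun k => (1 : ℝ) / b k) (m n : ℕ) :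
    ∃ m', m < m' ∧ ∏ k ∈ Finset.Ico m m', (1 - 1 / (b k : ℝ)) ≤ (1 / 2) ^ n := by
  have h1 : Tendsto (fun m' => ∑ k ∈ Finset.range m', (1 : ℝ) / b k) atTop atTop :=
    (not_summable_iff_tendsto_nat_atTop_of_nonneg (fun k => by positivity)).1 hs
  obtain ⟨m', hm1, hm2⟩ := ((eventually_gt_atTop m).and
    (h1.eventually_ge_atTop (n * Real.log 2 + ∑ k ∈ Finset.range m, (1 : ℝ) / b k))).exists
  refine ⟨m', hm1, ?_⟩
  have h2 : (n : ℝ) * Real.log 2 ≤ ∑ k ∈ Finset.Ico m m', (1 : ℝ) / b k := by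
    rw [Finset.sum_Ico_eq_sub _ hm1.le]
    linarith
  calc ∏ k ∈ Finset.Ico m m', (1 - 1 / (b k : ℝ))
      ≤ ∏ k ∈ Finset.Ico m m', Real.exp (-(1 / (b k : ℝ))) := by
        refine Finset.prod_le_prod (fun k _ => ?_) (fun k _ => ?_)
        · have h0 : (1 : ℝ) ≤ b k := by exact_mod_cast hb k
          have h2 : 1 / (b k : ℝ) ≤ 1 := by
            rw [div_le_one (by linarith)]
            exact h0
          linarith
        · have := Real.add_one_le_exp (-(1 / (b k : ℝ)))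
          linarith
    _ = Real.exp (-∑ k ∈ Finset.Ico m m', (1 : ℝ) / b k) := by
        rw [← Real.exp_sum, Finset.sum_neg_distrib]
    _ ≤ Real.exp (-(n * Real.log 2)) := Real.exp_le_exp.2 (by linarith)
    _ = (1 / 2) ^ n := by
        rw [Real.exp_neg, Real.exp_nat_mul, Real.exp_log (by norm_num), one_div, inv_pow]

theorem exists_partition {b : ℕ → ℕ} (hb : ∀ k, 1 ≤ b k)
    (hs : ¬ Summable fun k => (1 : ℝ) / b k) :
    ∃ a : ℕ → ℕ, IsPartition a ∧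
      ∀ x ∈ Prod b, prodU b {h | ¬ Sq x a h} = 0 := by
  choose φ h1 h2 using exists_long hb hs
  obtain ⟨a, ha0, has⟩ : ∃ a : ℕ → ℕ, a 0 = 0 ∧ ∀ n, a (n + 1) = φ (a n) n :=
    ⟨fun n => Nat.rec 0 (fun n r => φ r n) n, rfl, fun _ => rfl⟩
  refine ⟨a, ⟨strictMono_nat_of_lt_succ fun n => ?_, ha0⟩, fun x hx => ?_⟩
  · rw [has]
    exact h1 _ _
  · have e : {h | ¬ Sq x a h} =
        {h : ℕ → ℕ | ∃ᶠ n in atTop, ∀ k, a n ≤ k → k < a (n + 1) → x k ≠ h k} := by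
      ext h
      show ¬ Sq x a h ↔ ∃ᶠ n in atTop, ∀ k, a n ≤ k → k < a (n + 1) → x k ≠ h k
      unfold Sq
      rw [Filter.not_eventually]
      refine frequently_congr (Eventually.of_forall fun n => ?_)
      push Not
      rfl
    rw [e]
    apply measure_setOfPred_frequently_eq_zero
    refine ne_top_of_le_ne_top summable_geometric_two.tsum_ofReal_ne_top
      (ENNReal.tsum_le_tsum fun n => ?_)
    rw [prodU_miss hb hx]
    refine ENNReal.ofReal_le_ofReal ?_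
    have h3 := h2 (a n) n
    rw [← has n] at h3
    exact h3

/-! ### The inequalities -/

theorem exists_bEq {b : ℕ → ℕ} (hb : ∀ k, 1 ≤ b k) (hb2 : ∀ᶠ k in atTop, 2 ≤ b k) :
    ∃ F : Set (ℕ → ℕ), F ⊆ Prod b ∧
    (¬ ∃ a, IsPartition a ∧ ∃ h ∈ Prod b, ∀ f ∈ F, Sq f a h) ∧ #F = bEq b := by
  have hne : {κ | ∃ F : Set (ℕ → ℕ), F ⊆ Prod b ∧
      (¬ ∃ a, IsPartition a ∧ ∃ h ∈ Prod b, ∀ f ∈ F, Sq f a h) ∧ #F = κ}.Nonempty := by
    refine ⟨_, Prod b, subset_rfl, ?_, rfl⟩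
    rintro ⟨a, ha, h, hh, hall⟩
    obtain ⟨K, hK⟩ := eventually_atTop.1 hb2
    have hf : (fun k => if K ≤ k ∧ h k = 0 then 1 else 0) ∈ Prod b := by
      intro k
      have h1 := hb k
      show (if K ≤ k ∧ h k = 0 then 1 else 0) < b k
      split_ifs with hc
      · have := hK k hc.1
        omega
      · omega
    obtain ⟨N, hN⟩ := eventually_atTop.1 (hall _ hf)
    obtain ⟨k, hk1, hk2, hk3⟩ := hN (max N K) (le_max_left _ _)
    have hk4 : K ≤ k := (le_max_right N K).trans ((ha.1.id_le _).trans hk1)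
    simp only [hk4, true_and] at hk3
    split_ifs at hk3 with hc <;> omega
  exact csInf_mem hne

theorem covN_le_bEq {b : ℕ → ℕ} (hb : ∀ k, 1 ≤ b k) (hb2 : ∀ᶠ k in atTop, 2 ≤ b k)
    (hs : ¬ Summable fun k => (1 : ℝ) / b k) : covN ≤ bEq b := by
  obtain ⟨f, hf, hmap⟩ := (prodU b).exists_measurable_map_eq
  obtain ⟨F, hsub, hwit, hcard⟩ := exists_bEq hb hb2
  obtain ⟨a, ha, hnull⟩ := exists_partition hb hs
  rw [← hcard]
  have hpre : ∀ S : Set (ℕ → ℕ), prodU b S = 0 → volume (f ⁻¹' S) = 0 := fun S hS =>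
    Measure.preimage_null_of_map_null hf.aemeasurable (by rw [hmap]; exact hS)
  have hmem : #((fun x => f ⁻¹' ((Prod b)ᶜ ∪ {h | ¬ Sq x a h})) '' F) ∈
      {κ | ∃ 𝒩 : Set (Set unitInterval), (∀ N ∈ 𝒩, volume N = 0) ∧ ⋃₀ 𝒩 = Set.univ ∧
        #𝒩 = κ} := by
    refine ⟨_, ?_, ?_, rfl⟩
    · rintro _ ⟨x, hx, rfl⟩
      exact hpre _ (measure_union_null (prodU_below hb) (hnull x (hsub hx)))
    · refine Set.eq_univ_of_forall fun ω => ?_
      by_contra hc
      have h1 : ∀ x ∈ F, f ω ∈ Prod b ∧ Sq x a (f ω) := by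
        intro x hx
        by_contra h2
        apply hc
        refine ⟨_, ⟨x, hx, rfl⟩, ?_⟩
        by_cases h3 : f ω ∈ Prod b
        · right
          intro h4
          exact h2 ⟨h3, h4⟩
        · left
          exact h3
      rcases F.eq_empty_or_nonempty with h0 | ⟨x, hx⟩
      · apply hwit
        exact ⟨a, ha, fun _ => 0, fun k => hb k, by simp [h0]⟩
      · exact hwit ⟨a, ha, f ω, (h1 x hx).1, fun y hy => (h1 y hy).2⟩
  exact (csInf_le' hmem).trans Cardinal.mk_image_le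

theorem exists_non : ∃ A : Set unitInterval, volume A ≠ 0 ∧ #A = nonN := by
  have hne : {κ | ∃ A : Set unitInterval, volume A ≠ 0 ∧ #A = κ}.Nonempty :=
    ⟨_, Set.univ, by simp, rfl⟩
  exact csInf_mem hne

theorem dEq_le_nonN {b : ℕ → ℕ} (hb : ∀ k, 1 ≤ b k)
    (hs : ¬ Summable fun k => (1 : ℝ) / b k) : dEq b ≤ nonN := by
  obtain ⟨f, hf, hmap⟩ := (prodU b).exists_measurable_map_eq
  obtain ⟨A, hA, hcard⟩ := exists_non
  obtain ⟨a, ha, hnull⟩ := exists_partition hb hs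
  rw [← hcard]
  have hpre : ∀ S : Set (ℕ → ℕ), prodU b S = 0 → volume (f ⁻¹' S) = 0 := fun S hS =>
    Measure.preimage_null_of_map_null hf.aemeasurable (by rw [hmap]; exact hS)
  have hmem : #((fun ω => (a, f ω)) '' (A ∩ f ⁻¹' Prod b)) ∈
      {κ | ∃ D : Set ((ℕ → ℕ) × (ℕ → ℕ)), (∀ p ∈ D, IsPartition p.1 ∧ p.2 ∈ Prod b) ∧
        (∀ f ∈ Prod b, ∃ p ∈ D, Sq f p.1 p.2) ∧ #D = κ} := by
    refine ⟨_, ?_, fun x hx => ?_, rfl⟩
    · rintro _ ⟨ω, hω, rfl⟩
      exact ⟨ha, hω.2⟩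
    · by_contra hc
      push Not at hc
      apply hA
      have hsub : A ⊆ f ⁻¹' (Prod b)ᶜ ∪ f ⁻¹' {h | ¬ Sq x a h} := by
        intro ω hω
        by_cases h1 : f ω ∈ Prod b
        · right
          exact hc (a, f ω) ⟨ω, ⟨hω, h1⟩, rfl⟩
        · left
          exact h1
      exact measure_mono_null hsub (measure_union_null (hpre _ (prodU_below hb))
        (hpre _ (hnull x hx)))
  refine (csInf_le' hmem).trans (Cardinal.mk_image_le.trans (Cardinal.mk_le_mk_of_subset ?_))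
  exact Set.inter_subset_left

instance : IsProbabilityMeasure coin := by
  unfold coin
  infer_instance

theorem null_of_isE {A : Set (ℕ → Bool)} (h : IsE A) : coin A = 0 := by
  obtain ⟨C, hC, hsub⟩ := h
  exact measure_mono_null hsub (measure_iUnion_null fun n => (hC n).2)

theorem nonE_le_nonN : nonE ≤ nonN := by
  obtain ⟨f, hf, hmap⟩ := coin.exists_measurable_map_eq
  obtain ⟨A, hA, hcard⟩ := exists_non
  rw [← hcard]
  have hmem : #(f '' A) ∈ {κ | ∃ A : Set (ℕ → Bool), ¬ IsE A ∧ #A = κ} := by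
    refine ⟨_, fun hE => hA ?_, rfl⟩
    have h1 : volume (f ⁻¹' (f '' A)) = 0 :=
      Measure.preimage_null_of_map_null hf.aemeasurable (by rw [hmap]; exact null_of_isE hE)
    exact measure_mono_null (Set.subset_preimage_image f A) h1
  exact (csInf_le' hmem).trans Cardinal.mk_image_le

theorem covN_le_covE : covN ≤ covE := by
  obtain ⟨f, hf, hmap⟩ := coin.exists_measurable_map_eq
  have hne : {κ | ∃ 𝒜 : Set (Set (ℕ → Bool)), (∀ A ∈ 𝒜, IsE A) ∧ ⋃₀ 𝒜 = Set.univ ∧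
      #𝒜 = κ}.Nonempty := by
    refine ⟨_, Set.range fun x : ℕ → Bool => {x}, ?_, ?_, rfl⟩
    · rintro _ ⟨x, rfl⟩
      refine ⟨fun _ => {x}, fun _ => ⟨isClosed_singleton, ?_⟩,
        Set.subset_iUnion (fun _ : ℕ => ({x} : Set (ℕ → Bool))) 0⟩
      have h1 : ∀ N : ℕ, coin {x} ≤ (1 / 2) ^ N := by
        intro N
        have h2 : ({x} : Set (ℕ → Bool)) ⊆ Set.pi ((Finset.range N : Finset ℕ) : Set ℕ)
            (fun k => {x k}) := by
          intro y hy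
          rw [Set.mem_singleton_iff] at hy
          rw [hy]
          intro k _
          rfl
        refine (measure_mono h2).trans ?_
        unfold coin
        rw [Measure.infinitePi_pi _ (fun _ _ => MeasurableSet.of_discrete)]
        have h3 : ∀ k, (PMF.uniformOfFintype Bool).toMeasure {x k} = 1 / 2 := by
          intro k
          rw [PMF.toMeasure_apply_singleton _ _ (measurableSet_singleton _)]
          simp
        simp only [h3]
        simp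
      have h4 : Tendsto (fun N : ℕ => ((1 : ℝ≥0∞) / 2) ^ N) atTop (nhds 0) := by
        apply ENNReal.tendsto_pow_atTop_nhds_zero_of_lt_one
        rw [one_div]
        exact ENNReal.inv_lt_one.2 (by norm_num)
      exact le_antisymm (ge_of_tendsto' h4 h1) bot_le
    · refine Set.eq_univ_of_forall fun x => ?_
      exact ⟨{x}, ⟨x, rfl⟩, rfl⟩
  obtain ⟨𝒜, h1, h2, hcard⟩ := csInf_mem hne
  have hcard' : #𝒜 = covE := hcard
  rw [← hcard']
  have hmem : #((fun A => f ⁻¹' A) '' 𝒜) ∈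
      {κ | ∃ 𝒩 : Set (Set unitInterval), (∀ N ∈ 𝒩, volume N = 0) ∧ ⋃₀ 𝒩 = Set.univ ∧
        #𝒩 = κ} := by
    refine ⟨_, ?_, ?_, rfl⟩
    · rintro _ ⟨A, hA, rfl⟩
      exact Measure.preimage_null_of_map_null hf.aemeasurable
        (by rw [hmap]; exact null_of_isE (h1 A hA))
    · refine Set.eq_univ_of_forall fun ω => ?_
      have h3 : f ω ∈ ⋃₀ 𝒜 := by
        rw [h2]
        trivial
      obtain ⟨A, hA, hω⟩ := h3
      exact ⟨_, ⟨A, hA, rfl⟩, hω⟩
  exact (csInf_le' hmem).trans Cardinal.mk_image_le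

/-- **`non(ℰ) < 𝔟_b^eq` and `𝔡_b^eq < cov(ℰ)` for all `b` with divergent sum.** -/
theorem result :
    (∀ b : ℕ → ℕ, (∀ k, 1 ≤ b k) → (∀ᶠ k in atTop, 2 ≤ b k) →
      (¬ Summable fun k => (1 : ℝ) / b k) → covN ≤ bEq b ∧ dEq b ≤ nonN) ∧
    nonE ≤ nonN ∧ covN ≤ covE ∧
    (nonN < covN → ∀ b : ℕ → ℕ, (∀ k, 1 ≤ b k) → (∀ᶠ k in atTop, 2 ≤ b k) →
      (¬ Summable fun k => (1 : ℝ) / b k) → nonE < bEq b ∧ dEq b < covE) := by
  refine ⟨fun b hb hb2 hs => ⟨covN_le_bEq hb hb2 hs, dEq_le_nonN hb hs⟩, nonE_le_nonN,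
    covN_le_covE, fun hlt b hb hb2 hs => ⟨?_, ?_⟩⟩
  · exact nonE_le_nonN.trans_lt (hlt.trans_le (covN_le_bEq hb hb2 hs))
  · exact (dEq_le_nonN hb hs).trans_lt (hlt.trans_le covN_le_covE)

end Pool.Agent.Results.MP_0fb2ec_lc.DivergentSums
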